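import Pool.Agent.P8H97.FE.Stm

/-!
# Project FE, package BOX (helper23): from the shifts to the exponents
-/

set_option autoImplicit false

open Finset Filter MeasureTheory Topology
open Pool.Agent.P8H97.FE

namespace Pool.Agent.P8H23.FE

/-- counting in a box -/
lemma box_card {l : ℕ} (H : Fin l → ℕ) (i : Fin l) (hH : 0 < H i) (B : Finset ℕ)
    (hB : B ⊆ Icc 1 (H i)) :
    (((Pool.Agent.P8H97.FE.box H).filter (fun h => h i ∈ B)).card : ℝ) = ((B.card : ℝ) / H i) * ∏ j, (H j : ℝ) := by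
  have h1 : (Pool.Agent.P8H97.FE.box H).filter (fun h => h i ∈ B) =
      Fintype.piFinset (Function.update (fun j => Icc 1 (H j)) i B) := by
    ext h
    simp only [Pool.Agent.P8H97.FE.box, mem_filter, Fintype.mem_piFinset]
    constructor
    · rintro ⟨h1, h2⟩ j
      by_cases hj : j = i
      · subst hj
        rw [Function.update_self]
        exact h2
      · rw [Function.update_of_ne hj]
        exact h1 j
    · intro h1
      have h2 : h i ∈ B := by
        have h3 := h1 i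
        rwa [Function.update_self] at h3
      refine ⟨fun j => ?_, h2⟩
      by_cases hj : j = i
      · subst hj
        exact hB h2
      · have h3 := h1 j
        rwa [Function.update_of_ne hj] at h3
  have hHr : (H i : ℝ) ≠ 0 := by
    have : (0 : ℝ) < H i := by exact_mod_cast hH
    exact this.ne'
  rw [h1, Fintype.card_piFinset, Nat.cast_prod]
  rw [← Finset.mul_prod_erase univ _ (mem_univ i),
    ← Finset.mul_prod_erase univ (fun j => (H j : ℝ)) (mem_univ i)]
  rw [Function.update_self]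
  have h2 : ∏ j ∈ univ.erase i, ((Function.update (fun j => Icc 1 (H j)) i B j).card : ℝ) =
      ∏ j ∈ univ.erase i, (H j : ℝ) := by
    refine prod_congr rfl fun j hj => ?_
    rw [Function.update_of_ne (ne_of_mem_erase hj), Nat.card_Icc, Nat.add_sub_cancel]
  rw [h2, ← mul_assoc, div_mul_cancel₀ _ hHr]

/-- the volume of the cells -/
lemma cells {l : ℕ} (x : Fin l → ℝ) (n : ℕ) (hn : 2 ≤ n) (w : ℝ) (hw : 0 < w)
    (T : Set (Fin l → ℕ)) (G : Finset (Fin l → ℕ))
    (hG : ∀ h ∈ G, h ∈ T ∧ ∀ i, 1 ≤ h i ∧ (n : ℝ) ^ (x i) ≤ h i ∧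
      (h i : ℝ) + 1 ≤ Real.exp w * (n : ℝ) ^ (x i)) :
    G.card * ∏ i, (1 / (Real.exp w * (n : ℝ) ^ (x i) * Real.log n)) ≤
      volume.real ({c : Fin l → ℝ | (fun i => ⌊(n : ℝ) ^ (c i)⌋₊) ∈ T} ∩
        Metric.closedBall x (w / Real.log n)) := by
  have hn1 : (1 : ℝ) < n := by
    have : (2 : ℝ) ≤ n := by exact_mod_cast hn
    linarith
  have hn0 : (0 : ℝ) < n := by linarith
  have hL : 0 < Real.log n := Real.log_pos hn1
  let lo : (Fin l → ℕ) → Fin l → ℝ := fun h i => Real.log (h i) / Real.log n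
  let hi : (Fin l → ℕ) → Fin l → ℝ := fun h i => Real.log ((h i : ℝ) + 1) / Real.log n
  let Q : (Fin l → ℕ) → Set (Fin l → ℝ) := fun h => Set.pi Set.univ fun i => Set.Ico (lo h i) (hi h i)
  have hfl : ∀ h ∈ G, ∀ c ∈ Q h, (fun i => ⌊(n : ℝ) ^ (c i)⌋₊) = h := by
    intro h hh c hc
    funext i
    have h1 := hc i (Set.mem_univ i)
    have h2 := ((hG h hh).2 i).1
    have hpos : (0 : ℝ) < h i := by exact_mod_cast h2
    rw [Nat.floor_eq_iff (Real.rpow_nonneg hn0.le _), Real.rpow_def_of_pos hn0]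
    constructor
    · rw [← Real.exp_log hpos, Real.exp_le_exp]
      have h3 : Real.log (h i) / Real.log n ≤ c i := h1.1
      rw [div_le_iff₀ hL] at h3
      linarith
    · have hpos1 : (0 : ℝ) < (h i : ℝ) + 1 := by linarith
      rw [← Real.exp_log hpos1, Real.exp_lt_exp]
      have h3 : c i < Real.log ((h i : ℝ) + 1) / Real.log n := h1.2
      rw [lt_div_iff₀ hL] at h3
      linarith
  have hsub : (⋃ h ∈ G, Q h) ⊆ {c : Fin l → ℝ | (fun i => ⌊(n : ℝ) ^ (c i)⌋₊) ∈ T} ∩
      Metric.closedBall x (w / Real.log n) := by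
    intro c hc
    simp only [Set.mem_iUnion] at hc
    obtain ⟨h, hh, hc⟩ := hc
    refine ⟨?_, ?_⟩
    · show (fun i => ⌊(n : ℝ) ^ (c i)⌋₊) ∈ T
      rw [hfl h hh c hc]
      exact (hG h hh).1
    · rw [Metric.mem_closedBall, dist_pi_le_iff (by positivity)]
      intro i
      have h1 := hc i (Set.mem_univ i)
      obtain ⟨h2, h3, h4⟩ := (hG h hh).2 i
      have hpos : (0 : ℝ) < h i := by exact_mod_cast h2
      have hy : 0 < (n : ℝ) ^ (x i) := Real.rpow_pos_of_pos hn0 _
      have h5 : x i * Real.log n ≤ Real.log (h i) := by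
        rw [← Real.log_rpow hn0]
        exact Real.log_le_log hy h3
      have h6 : Real.log ((h i : ℝ) + 1) ≤ w + x i * Real.log n := by
        have h10 : Real.log (Real.exp w * (n : ℝ) ^ (x i)) = w + x i * Real.log n := by
          rw [Real.log_mul (Real.exp_pos _).ne' hy.ne', Real.log_exp w, Real.log_rpow hn0]
        rw [← h10]
        exact Real.log_le_log (by linarith) h4
      have h7 : Real.log (h i) / Real.log n ≤ c i := h1.1
      have h8 : c i < Real.log ((h i : ℝ) + 1) / Real.log n := h1.2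
      rw [div_le_iff₀ hL] at h7
      rw [lt_div_iff₀ hL] at h8
      rw [Real.dist_eq, abs_le]
      constructor
      · rw [neg_le_sub_iff_le_add]
        have h9 : x i ≤ c i := le_of_mul_le_mul_right (h5.trans h7) hL
        have h10 : 0 < w / Real.log n := by positivity
        linarith
      · rw [le_div_iff₀ hL]
        linarith [sub_mul (c i) (x i) (Real.log n)]
  have hdis : (G : Set (Fin l → ℕ)).PairwiseDisjoint Q := by
    intro h hh h' hh' hne
    refine Set.disjoint_left.2 fun c hc hc' => hne ?_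
    rw [← hfl h hh c hc, ← hfl h' hh' c hc']
  have hmeas : ∀ h ∈ G, MeasurableSet (Q h) := fun h _ =>
    MeasurableSet.univ_pi fun i => measurableSet_Ico
  have hle : ∀ h ∈ G, ∀ i, lo h i ≤ hi h i := by
    intro h hh i
    have h2 := ((hG h hh).2 i).1
    have hpos : (0 : ℝ) < h i := by exact_mod_cast h2
    exact div_le_div_of_nonneg_right (Real.log_le_log hpos (by linarith)) hL.le
  have hfin : ∀ h ∈ G, volume (Q h) ≠ ⊤ := by
    intro h hh
    show volume (Set.pi Set.univ fun i => Set.Ico (lo h i) (hi h i)) ≠ ⊤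
    rw [Real.volume_pi_Ico]
    exact (ENNReal.prod_lt_top fun i _ => ENNReal.ofReal_lt_top).ne
  have hvol : ∀ h ∈ G, ∏ i, (1 / (Real.exp w * (n : ℝ) ^ (x i) * Real.log n)) ≤
      volume.real (Q h) := by
    intro h hh
    have h1 : volume.real (Q h) = ∏ i, (hi h i - lo h i) :=
      Real.volume_pi_Ico_toReal (hle h hh)
    rw [h1]
    refine prod_le_prod (fun i _ => by positivity) fun i _ => ?_
    obtain ⟨h2, h3, h4⟩ := (hG h hh).2 i
    have hpos : (0 : ℝ) < h i := by exact_mod_cast h2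
    have hy : 0 < (n : ℝ) ^ (x i) := Real.rpow_pos_of_pos hn0 _
    show _ ≤ Real.log ((h i : ℝ) + 1) / Real.log n - Real.log (h i) / Real.log n
    rw [← sub_div, ← Real.log_div (by positivity) hpos.ne', one_div, mul_inv, ← div_eq_mul_inv]
    refine div_le_div_of_nonneg_right ?_ hL.le
    have h5 := Real.one_sub_inv_le_log_of_pos (x := ((h i : ℝ) + 1) / h i) (by positivity)
    refine le_trans ?_ h5
    have h6 : 1 - (((h i : ℝ) + 1) / h i)⁻¹ = ((h i : ℝ) + 1)⁻¹ := by
      field_simp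
      ring
    rw [h6]
    exact inv_anti₀ (by positivity) h4
  have hball : volume ({c : Fin l → ℝ | (fun i => ⌊(n : ℝ) ^ (c i)⌋₊) ∈ T} ∩
      Metric.closedBall x (w / Real.log n)) ≠ ⊤ :=
    ((measure_mono Set.inter_subset_right).trans_lt
      (isCompact_closedBall x (w / Real.log n)).measure_lt_top).ne
  calc (G.card : ℝ) * ∏ i, (1 / (Real.exp w * (n : ℝ) ^ (x i) * Real.log n))
      = ∑ _h ∈ G, ∏ i, (1 / (Real.exp w * (n : ℝ) ^ (x i) * Real.log n)) := by
        rw [sum_const, nsmul_eq_mul]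
    _ ≤ ∑ h ∈ G, volume.real (Q h) := sum_le_sum hvol
    _ = volume.real (⋃ h ∈ G, Q h) := (measureReal_biUnion_finset hdis hmeas hfin).symm
    _ ≤ _ := measureReal_mono hsub hball

/-- **BOX.** -/
theorem bx : S_BOX := by
  classical
  intro l hl x hx κ hκ T hT
  obtain ⟨lam, hlam⟩ : ∃ lam : ℝ, lam = 16 * l / κ + 2 := ⟨_, rfl⟩
  have hlr : (0 : ℝ) < l := by exact_mod_cast hl
  have hlam2 : 2 < lam := by
    have : 0 < 16 * (l : ℝ) / κ := by positivity
    linarith
  have hlam0 : 0 < lam := by linarith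
  obtain ⟨w, hwd⟩ : ∃ w : ℝ, w = Real.log lam := ⟨_, rfl⟩
  have hw : 0 < w := by
    rw [hwd]
    exact Real.log_pos (by linarith)
  have hexp : Real.exp w = lam := by rw [hwd, Real.exp_log hlam0]
  refine ⟨w, hw, κ / 2 * (1 / (4 * w)) ^ l, by positivity, ?_⟩
  filter_upwards [hT w hw, eventually_ge_atTop 2] with n hn hn2
  rw [hexp] at hn
  have hn1 : (1 : ℝ) < n := by
    have : (2 : ℝ) ≤ n := by exact_mod_cast hn2
    linarith
  have hn0 : (0 : ℝ) < n := by linarith
  have hL : 0 < Real.log n := Real.log_pos hn1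
  obtain ⟨y, hy⟩ : ∃ y : Fin l → ℝ, y = fun i => (n : ℝ) ^ (x i) := ⟨_, rfl⟩
  have hyi : ∀ i, (n : ℝ) ^ (x i) = y i := fun i => by rw [hy]
  have hy1 : ∀ i, 1 ≤ y i := fun i => by
    rw [← hyi]
    exact Real.one_le_rpow hn1.le (hx i).le
  simp only [hyi] at hn
  obtain ⟨H, hH⟩ : ∃ H : Fin l → ℕ, H = fun i => ⌊lam * y i⌋₊ := ⟨_, rfl⟩
  have hHi : ∀ i, ⌊lam * y i⌋₊ = H i := fun i => by rw [hH]
  simp only [hHi] at hn
  have hHle : ∀ i, (H i : ℝ) ≤ lam * y i := fun i => by
    rw [← hHi]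
    exact Nat.floor_le (mul_nonneg hlam0.le (by linarith [hy1 i]))
  have hHge : ∀ i, lam * y i / 2 ≤ H i := fun i => by
    have h1 := Nat.lt_floor_add_one (lam * y i)
    rw [hHi] at h1
    have h2 : 2 ≤ lam * y i := by nlinarith [hy1 i]
    linarith
  have hHpos : ∀ i, 0 < (H i : ℝ) := fun i => by
    have := hHge i
    have h2 : 0 < lam * y i := mul_pos hlam0 (by linarith [hy1 i])
    linarith
  obtain ⟨B, hB⟩ : ∃ B : Fin l → Finset ℕ, B = fun i => (Icc 1 (H i)).filter (fun m : ℕ =>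
    (m : ℝ) < y i ∨ lam * y i < (m : ℝ) + 1) := ⟨_, rfl⟩
  have hBsub : ∀ i, B i ⊆ Icc 1 (H i) := fun i => by
    rw [hB]
    exact filter_subset _ _
  have hBcard : ∀ i, ((B i).card : ℝ) ≤ 2 * y i := by
    intro i
    have h1 : B i ⊆ Icc 1 ⌊y i⌋₊ ∪ {H i} := by
      intro m hm
      rw [hB] at hm
      obtain ⟨h2, h3⟩ := mem_filter.1 hm
      rw [mem_Icc] at h2
      rw [mem_union, mem_Icc, mem_singleton]
      rcases h3 with h3 | h3
      · left
        exact ⟨h2.1, Nat.le_floor h3.le⟩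
      · right
        refine le_antisymm h2.2 ?_
        by_contra hlt
        rw [not_le] at hlt
        have h4 : (m : ℝ) + 1 ≤ H i := by exact_mod_cast hlt
        linarith [hHle i]
    have h2 := (card_le_card h1).trans (card_union_le _ _)
    rw [Nat.card_Icc, Nat.add_sub_cancel, card_singleton] at h2
    have h3 : ((B i).card : ℝ) ≤ (⌊y i⌋₊ : ℝ) + 1 := by exact_mod_cast h2
    have h4 := Nat.floor_le (show 0 ≤ y i by linarith [hy1 i])
    linarith [hy1 i]
  obtain ⟨G, hGd⟩ : ∃ G : Finset (Fin l → ℕ), G = (Pool.Agent.P8H97.FE.box H).filter (fun h => h ∈ T n ∧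
    ∀ i, h i ∉ B i) := ⟨_, rfl⟩
  have hcov : (Pool.Agent.P8H97.FE.box H).filter (fun h => h ∈ T n) ⊆
      G ∪ univ.biUnion (fun i => (Pool.Agent.P8H97.FE.box H).filter (fun h => h i ∈ B i)) := by
    intro h hh
    obtain ⟨h1, h2⟩ := mem_filter.1 hh
    rw [mem_union]
    by_cases h3 : ∀ i, h i ∉ B i
    · left
      rw [hGd]
      exact mem_filter.2 ⟨h1, h2, h3⟩
    · right
      push Not at h3
      obtain ⟨i, hi⟩ := h3
      exact mem_biUnion.2 ⟨i, mem_univ i, mem_filter.2 ⟨h1, hi⟩⟩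
  have hPpos : 0 < ∏ i, (H i : ℝ) := prod_pos fun i _ => hHpos i
  have hbad : ∀ i, (((Pool.Agent.P8H97.FE.box H).filter (fun h => h i ∈ B i)).card : ℝ) ≤
      4 / lam * ∏ j, (H j : ℝ) := by
    intro i
    rw [box_card H i (by exact_mod_cast hHpos i) (B i) (hBsub i)]
    refine mul_le_mul_of_nonneg_right ?_ hPpos.le
    rw [div_le_div_iff₀ (hHpos i) hlam0]
    have h1 := hBcard i
    have h2 := hHge i
    nlinarith
  have hGcard : κ / 2 * ∏ i, (H i : ℝ) ≤ G.card := by
    have h1 := (card_le_card hcov).trans ((card_union_le _ _).trans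
      (Nat.add_le_add_left card_biUnion_le _))
    have h2 : (((Pool.Agent.P8H97.FE.box H).filter (fun h => h ∈ T n)).card : ℝ) ≤ G.card +
        ∑ i, (((Pool.Agent.P8H97.FE.box H).filter (fun h => h i ∈ B i)).card : ℝ) := by exact_mod_cast h1
    have h3 : ∑ i, (((Pool.Agent.P8H97.FE.box H).filter (fun h => h i ∈ B i)).card : ℝ) ≤
        l * (4 / lam * ∏ j, (H j : ℝ)) := by
      refine (sum_le_sum fun i _ => hbad i).trans ?_
      rw [sum_const, card_univ, Fintype.card_fin, nsmul_eq_mul]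
    have h4 : (l : ℝ) * (4 / lam * ∏ j, (H j : ℝ)) ≤ κ / 4 * ∏ j, (H j : ℝ) := by
      rw [← mul_assoc]
      refine mul_le_mul_of_nonneg_right ?_ hPpos.le
      rw [mul_div_assoc', div_le_iff₀ hlam0, hlam]
      have h5 : κ / 4 * (16 * l / κ + 2) = 4 * l + κ / 2 := by
        field_simp
        ring
      rw [h5]
      linarith
    have h6 : 0 < κ * ∏ j, (H j : ℝ) := mul_pos hκ hPpos
    linarith
  have hcell := cells x n hn2 w hw (T n) G (by
    intro h hh
    rw [hGd] at hh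
    obtain ⟨h1, h2, h3⟩ := mem_filter.1 hh
    refine ⟨h2, fun i => ?_⟩
    have h4 : h i ∈ Icc 1 (H i) := Fintype.mem_piFinset.1 h1 i
    have h5 := h3 i
    rw [hB] at h5
    have h6 : ¬ ((h i : ℝ) < y i ∨ lam * y i < (h i : ℝ) + 1) := fun h7 =>
      h5 (mem_filter.2 ⟨h4, h7⟩)
    rw [not_or, not_lt, not_lt] at h6
    rw [hexp, hyi]
    exact ⟨(mem_Icc.1 h4).1, h6.1, h6.2⟩)
  refine le_trans ?_ hcell
  rw [hexp]
  have h1 : κ / 2 * (∏ i, (H i : ℝ)) * ∏ i, (1 / (lam * (n : ℝ) ^ (x i) * Real.log n)) ≤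
      G.card * ∏ i, (1 / (lam * (n : ℝ) ^ (x i) * Real.log n)) :=
    mul_le_mul_of_nonneg_right hGcard (prod_nonneg fun i _ => by positivity)
  refine le_trans ?_ h1
  rw [mul_assoc (κ / 2) (∏ i, (H i : ℝ)), ← prod_mul_distrib, mul_assoc (κ / 2), ← mul_pow]
  refine mul_le_mul_of_nonneg_left ?_ (by positivity)
  have h2 : 1 / (4 * w) * (2 * (w / Real.log n)) = 1 / (2 * Real.log n) := by
    field_simp
    ring
  rw [h2]
  have h3 : (1 / (2 * Real.log n)) ^ l = ∏ _i : Fin l, (1 / (2 * Real.log n)) := by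
    rw [prod_const, card_univ, Fintype.card_fin]
  rw [h3]
  refine prod_le_prod (fun i _ => by positivity) fun i _ => ?_
  rw [hyi, mul_one_div, div_le_div_iff₀ (by positivity)
    (mul_pos (mul_pos hlam0 (by linarith [hy1 i])) hL)]
  have h4 := hHge i
  nlinarith

end Pool.Agent.P8H23.FE
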